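import Pool.Agent.U400.TP.Main

/-!
# The Tate conjecture for `A ^ n × U`, `U` smooth, from ONE reduction of `A` in 100% of all isogeny classes

Let `F` be a finitely generated field (for instance a number field), `A` an abelian variety over `F` and `U` a
smooth variety over `F`, not necessarily proper. Suppose that `A` and `U` have good reduction at one place (closed
point of a model) with a residue field of `q` elements. Let `γ` be the Frobenius element at this place, `f` its
characteristic polynomial on the rational Tate module `V = V_ℓ(A)`, a Weil `q`-polynomial. `M` is the cohomology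
`H^b(U, ℚ_ℓ)`, on which `γ⁻¹` acts as the geometric Frobenius element; its eigenvalues are Weil numbers (of several
weights, if `U` is not proper).

Theorem. Let `g i > r` be natural numbers and `E` a number field. For all prime powers `q` and all families `f i` of
Weil polynomials of degrees `2 g i`, with the exception of a proportion `O (q ^ (-1 / 6) log q)` (also among the
ordinary ones only, or among those of abelian varieties only; they correspond to the isogeny classes of abelian
varieties by Weil, Honda and Tate), the following holds. For ALL finitely generated fields `F`, ALL abelian varieties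
`A` over `F` with Frobenius polynomial `∏ f i` at one place (nothing is assumed about the endomorphisms of `A` or
the other places), ALL smooth `U` such that the eigenvalues of the Frobenius element at this place on `H^b(U)` have
at most `2 r + 1` different conjugates - in particular if the Betti number is at most `2 r + 1` and the
characteristic polynomial is rational (proper `U`), `r = min g i - 1` - or rank at most `r` modulo the numbers with a
power in `E`, and all `ℓ` and `n`: the Tate classes in
`H^(2m)(A^n) ⊗ H^b(U)(c)` are the linear combinations of the products of `m` Tate classes of degree two on `A^n`,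
which are classes of divisors (Tate, Zarhin, Faltings), with Tate classes in `H^b(U)(c - m)`, and there are none
in `H^(2m+1)(A^n) ⊗ H^b(U)(c)`. So the Tate conjecture for `A^n × U` (over the finite extensions of `F`) is
equivalent to the Tate conjecture for `U`, and it holds for all powers of `A`.

The starting files contain the count for finite fields (`MP_81632f_ag.AbelianTimesSmooth`), and over number fields
special Frobenius polynomials. The theorem on good polynomials over arbitrary fields is the library theorem
`Pool.Agent.N166.CZ.tateProducts_of_good` (used in no hand-in), the count is `Pool.Agent.W484.TB.count_of_goodU`. New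
here: their combination, and the passage from the number of different eigenvalues to the rank.
-/

set_option autoImplicit false

namespace Pool.Agent.Results.MP_2a05c8_ag.AlmostAllReductions

open Polynomial

/-- The polynomials `f` of degree `2 g` with integral coefficients, leading coefficient one and constant term
`q ^ g`, all of whose complex roots have absolute value `√q`. -/
def weilPolys (q g : ℕ) : Set ℤ[X] :=
  {f | f.Monic ∧ f.natDegree = 2 * g ∧ f.coeff 0 = (q : ℤ) ^ g ∧
    ∀ z : ℂ, aeval z f = 0 → ‖z‖ ^ 2 = q}

/-- The Weil polynomials whose middle coefficient is prime to `q` (those of ordinary abelian varieties). -/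
def ordinaryWeilPolys (q g : ℕ) : Set ℤ[X] :=
  {f ∈ weilPolys q g | IsCoprime (f.coeff g) (q : ℤ)}

section classes

variable {k V M Γ : Type} [Field k] [AddCommGroup V] [Module k V] [AddCommGroup M] [Module k M] [Group Γ]

/-- The properties of the rational Tate module `V_ℓ(A)` of an abelian variety: there is a nondegenerate alternating
form with `ω (s u, s v) = χ(s) ω(u, v)` (the Weil pairing of a polarization, `χ` is the cyclotomic character), and
the representation is semisimple over all finite extensions (Tate, Zarhin, Faltings). -/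
def IsTateModule (ρ : Representation k Γ V) (χ : Γ →* k) : Prop :=
  (∃ ω : V →ₗ[k] V →ₗ[k] k, (∀ v, ω v v = 0) ∧ (∀ u, (∀ v, ω v u = 0) → u = 0) ∧
    ∀ s u v, ω (ρ s u) (ρ s v) = χ s * ω u v) ∧
  ∀ Δ : Subgroup Γ, Δ.FiniteIndex → ∀ U : Submodule k V, (∀ s ∈ Δ, ∀ u ∈ U, ρ s u ∈ U) →
    ∃ U' : Submodule k V, (∀ s ∈ Δ, ∀ u ∈ U', ρ s u ∈ U') ∧ IsCompl U U'

/-- A class in `H^2(A^n)(1)`, that is an alternating form in two variables on `V ^ n`, is a Tate class if it is fixed
by a subgroup of finite index of `Γ`. -/
def IsTateClassTwo (ρ : Representation k Γ V) (χ : Γ →* k) {n : ℕ}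
    (f : (Fin n → V) [⋀^Fin 2]→ₗ[k] k) : Prop :=
  ∃ Δ : Subgroup Γ, Δ.FiniteIndex ∧ ∀ s ∈ Δ, ∀ v : Fin 2 → Fin n → V,
    f (fun l i => ρ s (v l i)) = χ s ^ 1 * f v

/-- A class in `H^a(A^n) ⊗ H^b(U)(c)`, that is an alternating map `f` from `V ^ n` to `M = H^b(U)` in `a` variables
(indexed by `κ`), is a Tate class if it is fixed by a subgroup of finite index of `Γ`. -/
def IsTateMap (ρ : Representation k Γ V) (χ : Γ →* k) (σ : Representation k Γ M) {n : ℕ} (c : ℤ)
    {κ : Type} (f : (Fin n → V) [⋀^κ]→ₗ[k] M) : Prop :=
  ∃ Δ : Subgroup Γ, Δ.FiniteIndex ∧ ∀ s ∈ Δ, ∀ v : κ → Fin n → V,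
    f (fun l i => ρ s (v l i)) = χ s ^ c • σ s (f v)

/-- A class `z` in `H^b(U)(c)` is a Tate class if it is fixed by a subgroup of finite index. -/
def IsTateVector (χ : Γ →* k) (σ : Representation k Γ M) (c : ℤ) (z : M) : Prop :=
  ∃ Δ : Subgroup Γ, Δ.FiniteIndex ∧ ∀ s ∈ Δ, χ s ^ c • σ s z = z

/-- `g` is (a multiple by a nonzero rational number of) the product of the wedge product `B 0 ∧ ... ∧ B (m - 1)`
with `z`. -/
def IsProduct {n m : ℕ} (B : Fin m → (Fin n → V) [⋀^Fin 2]→ₗ[k] k) (z : M)
    (g : (Fin n → V) [⋀^Fin m × Fin 2]→ₗ[k] M) : Prop :=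
  ∀ v, g v = (∑ τ : Equiv.Perm (Fin m × Fin 2), ((Equiv.Perm.sign τ : ℤ) : k) *
    ∏ l, B l ![v (τ (l, 0)), v (τ (l, 1))]) • z

/-- For all `n`: all Tate classes in `H^(2m)(A^n) ⊗ H^b(U)(c)` are linear combinations of the products of wedge
products of `m` Tate classes of degree two on `A^n` and Tate classes in `H^b(U)(c - m)`, and there are no Tate
classes except zero in `H^(2m+1)(A^n) ⊗ H^b(U)(c)`. -/
def ProductsWith (ρ : Representation k Γ V) (χ : Γ →* k) (σ : Representation k Γ M) : Prop :=
  ∀ (n m : ℕ) (c : ℤ),
    (∀ f : (Fin n → V) [⋀^Fin m × Fin 2]→ₗ[k] M, IsTateMap ρ χ σ c f →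
      f ∈ Submodule.span k {g | ∃ (B : Fin m → (Fin n → V) [⋀^Fin 2]→ₗ[k] k) (z : M),
        (∀ l, IsTateClassTwo ρ χ (B l)) ∧ IsTateVector χ σ (c - m) z ∧ IsProduct B z g}) ∧
    ∀ f : (Fin n → V) [⋀^Fin (2 * m + 1)]→ₗ[k] M, IsTateMap ρ χ σ c f → f = 0

/-- `T` is killed by a nonzero rational polynomial with at most `d` different complex roots, all of whose squared
absolute values are integral powers of `q` (for `T` the geometric Frobenius element on the cohomology of a variety
this holds if its characteristic polynomial is rational and the cohomology has dimension at most `d`). -/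
def FewEigenvalues [CharZero k] (q d : ℕ) (T : Module.End k M) : Prop :=
  ∃ P : ℚ[X], P ≠ 0 ∧ aeval T (P.map (algebraMap ℚ k)) = 0 ∧ (P.rootSet ℂ).ncard ≤ d ∧
    ∀ z : ℂ, aeval z P = 0 → ∃ w : ℤ, ‖z‖ ^ 2 = (q : ℝ) ^ w

/-- The eigenvalues of `T` and all their conjugates over `ℚ` lie, up to powers, in a group generated by the nonzero
elements of the number field `E` and `r` numbers. -/
def SmallRank [CharZero k] (E : IntermediateField ℚ ℂ) (r : ℕ) (T : Module.End k M) : Prop :=
  ∃ P : ℚ[X], P ≠ 0 ∧ aeval T (P.map (algebraMap ℚ k)) = 0 ∧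
    ∃ u : Fin r → ℂ, (∀ j, u j ≠ 0) ∧ ∀ ρ : ℂ, aeval ρ P = 0 →
      ∃ (N : ℕ) (y : ℂ) (m : Fin r → ℤ), 0 < N ∧ y ∈ E ∧ y ≠ 0 ∧ ρ ^ N = y * ∏ j, u j ^ m j

end classes

/-- For all abelian varieties `A` (over all fields, with all endomorphisms) such that the characteristic polynomial
of ONE Frobenius element `γ` is the product of the `f i`, and all varieties `U` such that the geometric Frobenius
element `γ⁻¹` has at most `2 r + 1` eigenvalues on the cohomology `M = H^b(U)`, or eigenvalues of rank at most `r`
over `E`: the Tate classes on the products `A^n × U` are combinations of products of Tate classes of degree two on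
`A^n` with Tate classes on `U`. -/
def TateProducts {I : Type} [Fintype I] (E : IntermediateField ℚ ℂ) (q r : ℕ) (f : I → ℤ[X]) : Prop :=
  ∀ (k : Type) [Field k] [CharZero k] (V : Type) [AddCommGroup V] [Module k V]
    [FiniteDimensional k V] (Γ : Type) [Group Γ] (ρ : Representation k Γ V) (χ : Γ →* k),
    IsTateModule ρ χ → ∀ γ : Γ, χ γ = q → (ρ γ).charpoly = ∏ i, (f i).map (Int.castRingHom k) →
    ∀ (M : Type) [AddCommGroup M] [Module k M] [FiniteDimensional k M]
      (σ : Representation k Γ M),
      (SmallRank E r (σ γ⁻¹) ∨ FewEigenvalues q (2 * r + 1) (σ γ⁻¹)) → ProductsWith ρ χ σ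

/-- For `g i > r` and a number field `E`: among the families of Weil `q`-polynomials of degrees `2 g i` (or of any
subsets `S i` of them which contain the ordinary ones) the exceptions to `TateProducts` are a proportion
`O (q ^ (-1 / 6) log q)`, the constant depending only on `g`, `r` and `E`. -/
theorem result {I : Type} [Fintype I] (g : I → ℕ) (r : ℕ) (hr : ∀ i, r < g i)
    (E : IntermediateField ℚ ℂ) [FiniteDimensional ℚ E] :
    ∃ C : ℝ, ∀ q : ℕ, IsPrimePow q → ∀ S : I → Set ℤ[X],
      (∀ i, ordinaryWeilPolys q (g i) ⊆ S i ∧ S i ⊆ weilPolys q (g i)) →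
      (∀ i, (S i).Finite ∧ (S i).Nonempty) ∧
      ({f : I → ℤ[X] | (∀ i, f i ∈ S i) ∧ ¬ TateProducts E q r f}.ncard : ℝ) ≤
        C * (Real.log q * (q : ℝ) ^ (-(1 / 6) : ℝ)) * ∏ i, ((S i).ncard : ℝ) :=
  Pool.Agent.U400.TP.main g r hr E

end Pool.Agent.Results.MP_2a05c8_ag.AlmostAllReductions
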