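import Pool.Agent.U436.CS.Rel

/-!
# Tate's conjecture for the determinant part of products of coverings of the line with any variety

`cl : G → T` is a map of Borel–Moore homology theories on affine varieties over the algebraically closed field `k` of
characteristic `p` (the closure of a finitely generated field). For one fixed `i`:
`G.H X = CH_i (X) ⊗ ℚ_ℓ`, `T.H X = H_{2 i} (X, ℚ_ℓ (-i))` (Borel–Moore homology; `= H ^ {2 m} (X, ℚ_ℓ (m))`,
`m = dim X - i`, for smooth `X`), or, for `k` the closure of a finite field, the part of it on which the
Frobenius of some model has a root of unity as only eigenvalue (the generalised Tate classes; this is an exact functor).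
`O X h` is the same for the open part `h ≠ 0` of `X`, and `B X h` is the next degree (`CH_i (-, 1)`, `H_{2 i + 1}`).

The structure `IsBorelMoore` lists the known properties which are used: functoriality of the direct images for finite
maps, the long exact sequence of the closed part `h = 0`, homotopy invariance (automorphisms of a trivial line bundle
over its base act trivially), additivity, and that the direct image identifies the invariant classes with
the classes of a quotient by a finite group.

Let `A ≠ 0` be additive, `A (y) = y ^ q - y` in the application, and let, for `j < M`,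

  `F j (x) = f0 j (x) + ∑ i, f j i (1 / (x - P j i))`

be ANY rational functions, with poles of orders `m 0` at infinity and `m i` at `N j` different points, these orders
(the degrees of the polynomials `f0 j`, `f j i`) being different from zero in `k`. Let `C j` be the curve
`A (y) = F j (x)` (for `q = p`: after a change of `x`, every ramified `ℤ/p`-covering of the line) and
`d j = m 0 - 1 + ∑ (m i + 1) = dim H¹ (C' j)_ψ`, `C' j` the smooth projective model, `ψ ≠ 1` a character of the group
of the covering. Let `c j ≠ 0` be multipliers of `A` (`c j ∈ 𝔽_q`). The determinant classes on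
`∏ C j ^ d j × S` are those invariant under the permutations in each `C j ^ d j` and the translations
`y l ↦ y l + α l`, `A (α l) = 0`, `∑ c l * α l = 0`, and killed by the sum of all translations of one `y l`: the part
`⊕_ψ (⊗_j det H¹ (C' j)_ψ^{c j}) ⊗ H (S)`.

Theorem: for every variety `S` (a closed subset of an affine space), all determinant classes on `∏ C j ^ d j × S` come
from `G` if and only if all classes on `𝔸 ^ n × S` come from `G`, `2 n = ∑ d j`. So the Tate conjecture for the
determinant part of `∏ C j ^ d j × S` is equivalent with the Tate conjecture (in one degree) for `S`, and for `S` a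
point it is true: all the determinant classes on the smooth varieties `∏ C j ^ d j` are algebraic. They are exotic in
general: not generated by divisor classes. (A quasi-projective `S` is replaced by Jouanolou's affine torsor over `S`,
which has the same homology up to a shift.)
-/

set_option autoImplicit false

namespace Pool.Agent.Results.MP_2a05c8_ag.DeterminantClasses

open Pool.Agent.U436.AS Pool.Agent.U436.CT Pool.Agent.U436.CP Pool.Agent.U436.CS

theorem result (k : Type) [Field k] [IsAlgClosed k] (K : Type) [Field K] [CharZero K] (C : CycleMap k K)
    (hC : C.IsBorelMoore) (A : Polynomial k) (hA : IsAdditive A) (hA0 : A ≠ 0) (ζ : k) (hζ : A.eval ζ = 0)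
    (hζ0 : ζ ≠ 0) (M : ℕ) (N d : Fin M → ℕ) (f0 : Fin M → Polynomial k)
    (f : (j : Fin M) → Fin (N j) → Polynomial k) (P : (j : Fin M) → Fin (N j) → k)
    (hP : ∀ j, Function.Injective (P j)) (hm0 : ∀ j, ((f0 j).natDegree : k) ≠ 0)
    (hm : ∀ j i, ((f j i).natDegree : k) ≠ 0)
    (hd : ∀ j, d j + 1 = (f0 j).natDegree + ∑ i, ((f j i).natDegree + 1)) (n : ℕ) (he : ∑ j, d j = 2 * n)
    (c : Fin M → k) (hc : ∀ j, c j ≠ 0) (hAc : ∀ j y, A.eval (c j * y) = c j * A.eval y) (τ : Type)
    [Finite τ] (S : Set (τ → k)) (hS : IsZeroSet S) (l0 : LL d) :
    (∀ y, IsDet C.T A f0 f P c S l0 y → ∃ x, IsDet C.G A f0 f P c S l0 x ∧ C.cyc _ x = y) ↔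
      ∀ y, ∃ x, C.cyc (affS n S) x = y :=
  isDet_onto_iff hC hA hA0 hP hm0 hm hd he hc hAc hζ hζ0 hS l0

end Pool.Agent.Results.MP_2a05c8_ag.DeterminantClasses
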