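import Pool.Agent.U222.SM.Main

/-!
# The Tate conjecture for the products of arbitrary smooth varieties with cyclic coverings of large
prime degrees

Let `k` be a finitely generated field of any characteristic, with the Galois group `Γ`, and let
`X ↦ H(X)` be the `ℓ`-adic cohomology of the smooth varieties over `k`, proper or not, with its degrees,
the action of `Γ`, the Künneth formula and the classes of algebraic cycles (`Cohomology`,
`Cohomology.IsStandard`; `K = ℚ_ℓ`, embedded into `ℂ`; `χ` is the inverse of the cyclotomic character). The
statement `T^w(X)` of the problem is `Cohomology.Tate`: the invariants of `Γ` in `H^(2w)(X)(w)` are linear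
combinations of classes of algebraic cycles of codimension `w`.

Let `X_i` be smooth projective varieties over `k`, of dimensions `n_i`, which are models of cyclic
coverings

  `w ^ N_i = l_1 (x) ^ a_1 ⋯ l_s (x) ^ a_s`

of the projective space of dimension `n_i`, branched along hyperplanes in general position, where the
exponents are prime to `N_i` and `∑ a_k` is divisible by `N_i` (`Cohomology.IsModel`: the cohomology is the
direct sum of the lines of finitely many classes of algebraic cycles and of the part `W` without
invariants of the covering group). Let `σ` be the Frobenius of a closed point of good reduction, with the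
residue field `κ` with `q = c ^ f` elements, `c` prime; the action of `σ` and of a generator of
the covering group on `W` satisfy the trace formula (`IsCyclicCovering`), and the eigenvalues are
pure of weight `n_i` (Deligne). Let one of the following conditions be true (`IsAdmissibleFamily`).

* The degrees `N_i` are different prime numbers with `c ≡ 1` modulo `N_i`, `∑ a_k = N_i`, one of the
  exponents is `N_i - A_i` with `A_i ≥ 2` (so that `w ^ N_i` is a form of degree `A_i` in affine
  coordinates), `N_i > A_i ^ 2 b + A_i` and `n_i > λ`.
* `IsSeparated` for a common multiple `N` of the `N_i`: for all nonempty sets of indices and all `j_i`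
  not divisible by `N_i` there are `b + 1` units `u_k` modulo `N` such that the weights of the
  characters `u_k j_i` are small, and any two of them are separated.

(In characteristic zero there are always closed points with `c ≡ 1` modulo all `N_i`.)

Let `U` be **any** smooth variety over `k` with good reduction at the point, **proper or not**, such
that the eigenvalues of `σ` on `H(U)` satisfy `|β| ^ 2 = q ^ j` for some `j` (Deligne) and

* have degrees at most `2 b + 1` over `ℚ`, for instance all Betti numbers of `U` are at most `2 b + 1`; or
* the level of `U` is at most `λ` (`q ^ λ β / β̄` is integral), for instance `dim U ≤ λ`; or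
* `HasFewSlopes`: each `β` has at most `b` conjugates with a small slope, or at most `2 b + 1`
  conjugates over the field of the roots of unity of order `N`.

Let `V` be the product of finitely many different `X_i`.

**Theorem.**
* **If `U` is a smooth curve, proper or not, then `T^w(V × U)` holds for all `w`.** For example let all `X_i`
  be of dimension at least two, `N_i > A_i` different prime numbers (`b = 0`, `λ = 1`): then `T^w(V × U)`
  holds for all smooth curves `U` and all `w`.
* **If `U` is a smooth surface, proper or not, then `T^w(V × U)` holds for all `w` if and only if `T^1(U)`
  holds.** By the theorems of Tate, Faltings and others `T^1(U)` holds for instance for all open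
  subvarieties of abelian surfaces, of K3 surfaces and of products of two curves.
* **For every smooth variety `U`, `T^w(V × U)` holds for all `w ≤ n` if and only if `T^w(U)` holds for all
  `w ≤ n`.**
* The invariants of `Γ` in `H^(2w)(V × U)(w)` are the linear combinations of the products of classes of
  cycles on the `X_i` and of invariants in `H^(2w')(U)(w')`.

Examples of `X_i`: the curves `y ^ N = f (x)`, `f` any product of linear factors of degree `A` over `k`,
with a prime number `N > A ^ 2 b + A`; the coverings `w ^ N = l_1 ⋯ l_A` of the projective spaces, which are
varieties of general type or Calabi-Yau varieties of any dimension.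

The proof. By the theorem of Stickelberger the slopes of the eigenvalues on `W_i` are known; a product of
such eigenvalues and of an eigenvalue `β` on `H(U)` is not a power of `q` up to roots of unity, since
otherwise `β` would have `b + 1` conjugates of small slopes, pairwise different because the
characters are separated (Thue's lemma; `U222/SL`, `N876/FL`). So the invariants in `H(X_i × V' × U)` have
no component in `W_i ⊗ H(V' × U)`; their coordinates with respect to the `e k` are given by products with
cycles and push-forward to `V' × U` and are invariants in its cohomology.

The starting files and the other results on this problem treat the products of smooth varieties with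
abelian varieties and with varieties of extreme characters (where `dim U` is bounded). Here the
factors `X_i` are of any dimension and not of CM type, and `U` is arbitrary. The nearest
theorems are `MP_af4e75_ag.LargePrimeCoverings` and `MP_950c68_ag.LargePrimeCoverings` (formulas for the
Tate classes, without cycles on the other factor). The trace formula and Deligne's theorem for the `X_i` are
hypotheses in the definitions.

helper222.
-/

set_option autoImplicit false

open Finset TensorProduct

namespace Pool.Agent.Results.MP_2a05c8_ag.LargePrimesTimesSmooth

open Pool.Agent.U222.SL Pool.Agent.U222.SM
open Pool.Agent.U222.CR.Pub (IsAdmissibleFamily IsAdmissibleFactor complexified)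

/-- **The Tate conjecture for the products of arbitrary smooth varieties with cyclic coverings of large
prime degrees.** -/
theorem result (c : ℕ) [Fact c.Prime] (κ : Type) [Field κ] [Fintype κ] [CharP κ c] (f : ℕ)
    (hf : Fintype.card κ = c ^ f) {K 𝒱 Γ : Type} {H : 𝒱 → Type} [Field K] [Algebra K ℂ] [Mul 𝒱]
    [Group Γ] [∀ X, AddCommGroup (H X)] [∀ X, Module K (H X)] [∀ X, FiniteDimensional K (H X)]
    (T : Cohomology K H Γ) (χ : Γ →* Kˣ) (hT : T.IsStandard χ)
    -- the Frobenius of a closed point with residue field `κ`
    (σ : Γ) (hσ : ((χ σ : Kˣ) : K) = (Fintype.card κ : K))
    -- the varieties `X_i`, models of the coverings `C_i`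
    {ι : Type} [Fintype ι] [DecidableEq ι] (C : ι → Covering κ) (X : ι → 𝒱)
    {I : ι → Type} [∀ i, Fintype (I i)] [∀ i, DecidableEq (I i)] (codim : ∀ i, I i → ℕ)
    (e : ∀ i, I i → H (X i)) (l : ∀ i, I i → H (X i) →ₗ[K] K)
    (hX : ∀ i, T.IsModel (C i) σ (X i) (codim i) (e i) (l i)) (lam b N : ℕ)
    (hC : IsAdmissibleFamily C c f N lam b)
    -- the smooth variety `U`
    (U : 𝒱) (hU : IsAdmissibleFactor c (Fintype.card κ) N lam b (complexified (T.act U σ))) :
    ∀ L : List ι, L.Nodup → T.Conclusions χ X U codim e L :=
  fun L hL => main c κ f hf T χ hT σ hσ C X codim e l hX lam b N hC U hU L hL

end Pool.Agent.Results.MP_2a05c8_ag.LargePrimesTimesSmooth
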